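import Pool.Agent.Lib.helper16.EngC

namespace Pool.Agent.Results.MP_9682d1_al.Five

open Pool.Agent.Lib.helper16.EngA

theorem result : ∃ (G : Type) (_ : Group G) (a : G),
    (∀ x : G, (fun y : G => y⁻¹ * x⁻¹ * y * x)^[5] a = 1) ∧
    a ∉ ⨆ (g : G) (_ : (Subgroup.zpowers g).IsSubnormal), Subgroup.zpowers g := by
  refine ⟨G, inferInstance, x, engel5, fun h => x_not_baer
    (SetLike.le_def.1 (iSup₂_le fun g hg => ?_) h)⟩
  obtain ⟨n, K, hm, hn, h0, ht⟩ := Subgroup.IsSubnormal.isSubnormal_iff.1 hg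
  refine Subgroup.zpowers_le_of_mem (Subgroup.subset_closure ⟨n, K, h0, ht, fun i _ =>
    ⟨hm (Nat.le_succ i), fun a ha b hb => ?_⟩⟩)
  exact (hn i).conj_mem ⟨b, hm (Nat.le_succ i) hb⟩ hb ⟨a, ha⟩

end Pool.Agent.Results.MP_9682d1_al.Five
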